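import Pool.Agent.Lib.MP_b5021c_nt.KO.H42.Pm

/-!
# Board b5, PURE BETA, `j = 2`: the points `1`, `-1` for `V_3`, from the form of `V_2`
-/

namespace Pool.Agent.B5.KO58

open Polynomial Complex
open Pool.Agent.B5.O4C (face_pm pm_of_sq)

/-- `(1 - X²) f = c (1 - X^k)`, `k ≥ 1` even: `f(s) = (k/2) c(s)` at `s = ± 1`. -/
theorem f_at {f c : ℤ[X]} {k : ℕ} (hk : Even k) (hf : (1 - X ^ 2) * f = c * (1 - X ^ k)) {s : ℤ}
    (hs : s ^ 2 = 1) : f.eval s = ((k / 2 : ℕ) : ℤ) * c.eval s := by
  obtain ⟨m, hm⟩ := hk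
  have hk2 : k = 2 * m := by omega
  have h1 : (1 - X ^ 2 : ℤ[X]) ≠ 0 := by
    intro h
    have := congrArg (fun P => P.coeff 0) h
    simp [coeff_one, coeff_X_pow] at this
  have h2 : (1 - X ^ 2 : ℤ[X]) * ∑ i ∈ Finset.range m, (X ^ 2) ^ i = 1 - X ^ k := by
    rw [hk2, pow_mul, mul_neg_geom_sum]
  have h3 : f = c * ∑ i ∈ Finset.range m, (X ^ 2) ^ i := by
    apply mul_left_cancel₀ h1
    rw [hf, ← h2]
    ring
  have h4 : k / 2 = m := by omega
  rw [h3, h4, eval_mul, eval_finset_sum]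
  simp only [eval_pow, eval_X, hs, one_pow, Finset.sum_const, Finset.card_range, nsmul_eq_mul,
    mul_one]
  ring

/-- `V_3 = E_R - (1 + z) f`, content `c3`: `r3 = -1`, `k3` even. -/
theorem pm_three' {q f g E0 ER c c3 : ℤ[X]} {N k k3 : ℕ} {t t3 r3 : ℤ}
    (hq1 : ∀ s : ℤ, s ^ 2 = 1 → q.eval s ≠ 0) (hE : f - q = X * E0) (hk : Even k) (hk1 : 1 ≤ k)
    (hf : (1 - X ^ 2) * f = c * (1 - X ^ k))
    (hV : E0 - f - X * g = c * (C (N : ℤ) + C t * X ^ k)) (hER : g - q = X * ER)
    (hf3 : (1 - X ^ 2) * f = c3 * (1 + C r3 * X ^ k3))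
    (hV3 : ER - (1 + X) * f = c3 * (C (N : ℤ) + C t3 * X ^ k3))
    (nd2 : ∀ s : ℤ, s ^ 2 = 1 → (q + X * g).eval s = 0 → (derivative (q + X * g)).eval s ≠ 0)
    (hc : ∀ z : ℂ, ‖z‖ = 1 → ∀ w : ℂ, ‖w‖ = 1 → 1 / 2 * ‖aeval z q + z * aeval z g‖ ^ 2 ≤
      (((aeval z q + z * aeval z f) - z * aeval z f * (1 + w) ^ 2) *
        (starRingEnd ℂ) (aeval z q + z * aeval z g)).re) : r3 = -1 ∧ Even k3 := by
  have key : ∀ s : ℤ, s ^ 2 = 1 → c3.eval s ≠ 0 := by
    intro s hs h0
    have e1 : ER.eval s - (1 + s) * f.eval s = 0 := by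
      have := congrArg (fun P => P.eval s) hV3
      simp only [eval_sub, eval_mul, eval_add, eval_one, eval_X, h0, zero_mul] at this
      exact this
    have e2 : g.eval s - q.eval s = s * ER.eval s := by
      have := congrArg (fun P => P.eval s) hER
      simpa using this
    have e3 : f.eval s = 0 := by
      refine face_pm hs ?_ (nd2 s hs) hc
      simp only [eval_add, eval_mul, eval_X]
      rcases pm_of_sq hs with h | h
      · right; subst h; linarith
      · left; subst h; linarith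
    have e4 : c.eval s = 0 := by
      have h1 := f_at hk hf hs
      rw [e3] at h1
      rcases mul_eq_zero.mp h1.symm with h2 | h2
      · exfalso
        obtain ⟨m, hm⟩ := hk
        have : k / 2 = 0 := by exact_mod_cast h2
        omega
      · exact h2
    have e5 : E0.eval s - f.eval s - s * g.eval s = 0 := by
      have := congrArg (fun P => P.eval s) hV
      simp only [eval_sub, eval_mul, eval_X, e4, zero_mul] at this
      exact this
    have e6 : f.eval s - q.eval s = s * E0.eval s := by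
      have := congrArg (fun P => P.eval s) hE
      simpa using this
    have h7 := hq1 s hs
    rw [e3] at e1 e5 e6
    have e7 : ER.eval s = 0 := by linarith
    rw [e7] at e2
    have e8 : E0.eval s = s * g.eval s := by linarith
    rw [e8] at e6
    have e9 : s * (s * g.eval s) = g.eval s := by
      rw [← mul_assoc, ← sq, hs, one_mul]
    apply h7
    linarith
  have hz : ∀ s : ℤ, s ^ 2 = 1 → 1 + r3 * s ^ k3 = 0 := by
    intro s hs
    have e0 := congrArg (fun P => P.eval s) hf3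
    simp only [eval_mul, eval_sub, eval_one, eval_pow, eval_X, eval_add, eval_C, hs, sub_self,
      zero_mul] at e0
    rcases mul_eq_zero.mp e0.symm with h3 | h3
    · exact absurd h3 (key s hs)
    · exact h3
  have h1 := hz 1 (by norm_num)
  have h2 := hz (-1) (by norm_num)
  rw [one_pow, mul_one] at h1
  have hr : r3 = -1 := by linarith
  refine ⟨hr, ?_⟩
  rw [hr] at h2
  by_contra hn
  rw [Nat.not_even_iff_odd] at hn
  rw [hn.neg_one_pow] at h2
  norm_num at h2

end Pool.Agent.B5.KO58
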