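import Pool.Agent.Lib.MP_b5021c_nt.KO.H86.An
import Pool.Agent.Lib.MP_b5021c_nt.KO.H42.Rat
import Pool.Agent.Lib.MP_b5021c_nt.KO.H58.Pm3
import Pool.Agent.Lib.MP_b5021c_nt.KO.H67.O2

/-!
# Board b5, PURE BETA, `j = 2`: BeN2S from the binomial forms of the two double closings
-/

namespace Pool.Agent.B5.KO58

open scoped LaurentPolynomial
open Polynomial
open Pool.Agent.B5.KE
open Pool.Agent.B5.Nr (TrezS)
open Pool.Agent.B5.KO67 (ko_num n_ne_one_o)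

/-- (A) the form of `V_2 = D(y_0 = -1/z, x_R = z)`. -/
def N2AS : Prop := ∀ (P L : Type) [Fintype P] [DecidableEq P] [AddCommGroup L]
  [Module.Free ℤ L] [Module.Finite ℤ L] (phi : L →+ (P → ℤ)) (D : AO ℤ L) (q f : ℤ[X]) (a : ℝ)
  (s : ℕ) (S : Fin 3 → L) (es : Fin 3 → (RO ℤ)ˣ) (T : Fin s → L) (lam : Fin s → (RO ℤ)ˣ),
    Be phi D q f a 2 s S es T lam → ∀ (i : Fin s) (g : ℤ[X]) (e : (RO ℤ)ˣ) (E0 : ℤ[X]),
      RN D (T i) q g e a → lam i = ld e 1 → f - q = X * E0 →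
        ∃ (c : ℤ[X]) (k : ℕ) (t r : ℤ), 1 ≤ k ∧ c.coeff 0 = 1 ∧
          (∀ z : ℂ, ‖z‖ < 1 → (aeval z c : ℂ) ≠ 0) ∧ (1 - X ^ 2) * f = c * (1 + C r * X ^ k) ∧
          E0 - f - X * g = c * (C 2 + C t * X ^ k) ∧ |t| ≤ 2

/-- (B) the form of `V_3 = D(x_R = -1/z, y_0 = z)`, `u_R = 1`, `n_R = 3`. -/
def N2BS : Prop := ∀ (P L : Type) [Fintype P] [DecidableEq P] [AddCommGroup L]
  [Module.Free ℤ L] [Module.Finite ℤ L] (phi : L →+ (P → ℤ)) (D : AO ℤ L) (q f : ℤ[X]) (a : ℝ)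
  (s : ℕ) (S : Fin 3 → L) (es : Fin 3 → (RO ℤ)ˣ) (T : Fin s → L) (lam : Fin s → (RO ℤ)ˣ),
    Be phi D q f a 2 s S es T lam → ∀ (i : Fin s) (g : ℤ[X]) (e : (RO ℤ)ˣ) (ER : ℤ[X]),
      RN D (T i) q g e a → lam i = ld e 1 → g.coeff 0 = 1 → g.coeff 1 - q.coeff 1 = 3 →
      g - q = X * ER →
        ∃ (c : ℤ[X]) (k : ℕ) (t r : ℤ), 1 ≤ k ∧ c.coeff 0 = 1 ∧
          (∀ z : ℂ, ‖z‖ < 1 → (aeval z c : ℂ) ≠ 0) ∧ (1 - X ^ 2) * f = c * (1 + C r * X ^ k) ∧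
          ER - (1 + X) * f = c * (C 2 + C t * X ^ k) ∧ |t| ≤ 2

/-- (C) `u_R = 1`, `n_R = 2` is impossible. -/
def N2CS : Prop := ∀ (P L : Type) [Fintype P] [DecidableEq P] [AddCommGroup L]
  [Module.Free ℤ L] [Module.Finite ℤ L] (phi : L →+ (P → ℤ)) (D : AO ℤ L) (q f : ℤ[X]) (a : ℝ)
  (s : ℕ) (S : Fin 3 → L) (es : Fin 3 → (RO ℤ)ˣ) (T : Fin s → L) (lam : Fin s → (RO ℤ)ˣ),
    Be phi D q f a 2 s S es T lam → ∀ (i : Fin s) (g : ℤ[X]) (e : (RO ℤ)ˣ),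
      RN D (T i) q g e a → lam i = ld e 1 → g.coeff 0 = 1 → g.coeff 1 - q.coeff 1 = 2 → False

/-- (BE_N2) from (A), (B), (C). -/
theorem beN2 (hF : FcmS) (hP : BeParS) (hNd : Nd3S) (hNv : Nd3vS) (hTr : TrezS) (hA : N2AS)
    (hB : N2BS) (hC : N2CS) : BeN2S := by
  intro P L _ _ _ _ _ phi D q f a s S es T lam h i V b hTB
  obtain ⟨-, g, e, hR, hl⟩ := h.tT i
  have hl : lam i = ld e 1 := by
    rcases hl with hl | ⟨hl, hg, -⟩
    · exact hl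
    · exfalso
      obtain ⟨h1, h2, -⟩ := hTB
      have h3 : bm D (T i) (lam i) = toLaurent (q - g) := by
        rw [bm, hl, hR.D0, Units.val_neg, neg_mul, hR.DS, map_sub, sub_eq_add_neg]
      have h4 : q - g = V := toLaurent_injective (h3.symm.trans h1)
      rw [← h4, coeff_sub, hR.loc.q0, hg] at h2
      norm_num at h2
  have hb := KO.H86.zero_B hR hl hTB
  have nd2 := KO.H86.nd2_of hNd hR hb
  have hc := KO.H86.hc_of hF h hR hl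
  obtain ⟨E0, hE, hE1, hE2, -⟩ := typa (h.nS 0).loc h.f0 (h.nS 0).ne
  have nd1 := KO.H86.nd1_of hF hP hNv h hR hl hE
  obtain ⟨c, k, t, r, hk, hc0, hcz, hf, hV, ht⟩ := hA P L phi D q f a s S es T lam h i g e E0 hR
    hl hE
  have hV' : E0 - f - X * g = c * (C ((2 : ℕ) : ℤ) + C t * X ^ k) := by rw [hV]; norm_num
  obtain ⟨hr, hke⟩ := O4C.pm_two hE hf hV' nd1 nd2 hc
  have hf' : (1 - X ^ 2) * f = c * (1 - X ^ k) := by
    rw [hf, hr]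
    simp only [C_neg, C_1]
    ring
  have hk2 : 2 ≤ k := by
    obtain ⟨m, hm⟩ := hke
    omega
  have hth : 1 < (((2 : ℕ) : ℝ) + 1) * a := h.ko.lt
  have hE0 : E0.coeff 0 = ((2 : ℕ) : ℤ) + 1 := by
    rw [hE1, h.n]
  have hcp : 0 < c.coeff 0 := by rw [hc0]; norm_num
  have ht' : |t| ≤ ((2 : ℕ) : ℤ) := by exact_mod_cast ht
  refine O4C.betaB (N := 2) le_rfl (h.nS 0).loc hR.loc hth h.f0 hE hE0 hk2 hcp hcz hf' hV' ht' ?_
  by_cases hu : 2 ≤ g.coeff 0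
  · exact Or.inl (Or.inl hu)
  have hu1 : g.coeff 0 = 1 := by
    have := hR.u
    omega
  obtain ⟨ER, hER, hER1, hER2, -⟩ := typa hR.loc hu1 hR.ne
  have hn1 := n_ne_one_o hTr h.ko (h.rT i) hR hu1
  have hn2 : g.coeff 1 - q.coeff 1 ≠ 2 := fun hn =>
    hC P L phi D q f a s S es T lam h i g e hR hl hu1 hn
  rcases lt_or_ge (g.coeff 1 - q.coeff 1) 4 with h4 | h4
  · right
    have h3 : g.coeff 1 - q.coeff 1 = 3 := by omega
    obtain ⟨c3, k3, t3, r3, hk3, hc30, hc3z, hf3, hV3, ht3⟩ :=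
      hB P L phi D q f a s S es T lam h i g e ER hR hl hu1 h3 hER
    have hV3' : ER - (1 + X) * f = c3 * (C ((2 : ℕ) : ℤ) + C t3 * X ^ k3) := by
      rw [hV3]; norm_num
    obtain ⟨hr3, hk3e⟩ := pm_three' (KO.H86.q_pm h) hE hke hk hf' hV' hER hf3 hV3' nd2 hc
    refine ⟨ER, c3, k3, t3, hER, ?_, ?_, hc3z, ?_, hV3', by exact_mod_cast ht3⟩
    · obtain ⟨m, hm⟩ := hk3e
      omega
    · rw [hc30]; norm_num
    · rw [hf3, hr3]
      simp only [C_neg, C_1]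
      ring
  · left
    right
    refine ⟨hu1, ?_⟩
    push_cast
    omega

end Pool.Agent.B5.KO58
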