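import Pool.Agent.Lib.MP_b5021c_nt.KO.H58.BeAll
import Pool.Agent.Lib.MP_b5021c_nt.KO.H96.BeN2

/-!
# Board b5, PURE BETA: `BetS` from library rows only
-/

namespace Pool.Agent.B5.KO58

open Pool.Agent.B5.KE
open Pool.Agent.B5.Nr (TrezS)

theorem betS_all (hE2 : E2S) (hRS : RaySpanS) (hI : Inj1S) (hF1 : F1S) (hF2 : F2S) (hF3 : F3S)
    (hFc : FcmS) (hZf : ZfinS) (hQ : QstS) (hM : MinS) (hV : VcoS) (hW : WWfS) (hTr : TrezS)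
    (hPc : PCZS) (hMV : MVS) (hMm : MmulS) (hFD : FDS) (hNb : NbzS) (hLd : LdzS)
    (hRes : ResKS) (hFact : FactS) (hC0 : Coeff0S) (hE1 : E1S) (hM1 : M1S) (hC4 : C4S)
    (hThin : ThinS) (hSm : SmallS) (hG0 : G0S) (hU : UnitAS) (hC1 : C1bS) (hSpj : SpjS)
    (hClp : ClpS) (hG1 : G1pS) (hRkU : RkUSS) (hRk : RkS) (hEvz : EvzS) (hRF : RayFacS)
    (hKm : KmuS) (hTs : TsaS) (hBx : BpxS) (hNd : Nd3S) (hNv : Nd3vS) : BetS :=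
  betS_rest hE2 hRS hI hF1 hF2 hF3 hFc hZf hQ hM hV hW hTr hPc hMV hMm hFD hNb hLd hRes hFact hC0
    hE1 hM1 hC4 hThin hSm hG0 hU hC1 hSpj hClp hG1 hRkU hRk hEvz
    (KO.H96.beN2 hFD hG0 hC0 hE1 hE2 hMV hMm hRk hW hRF hSm hKm hU hF1 hRkU hTs hBx
      (BE.H24.besf hQ hM hV hW) hFc (O4Q.bPar hFc hZf) hNd hNv hTr)

end Pool.Agent.B5.KO58
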