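import Pool.Agent.Lib.MP_b5021c_nt.IfaceBE

/-!
# Board b5, (O4), l = 3, PURE BETA: the assembly `BetS` from the rows
-/

namespace Pool.Agent.B5.KO58

open scoped LaurentPolynomial
open Polynomial

/-- `2 (n + 1) log (n + 1) < (n - 1)²`, `n ≥ 7`. -/
theorem log_num {n : ℝ} (hn : 7 ≤ n) : 2 * (n + 1) * Real.log (n + 1) < (n - 1) ^ 2 := by
  have h8 : Real.log (n + 1) ≤ 3 * Real.log 2 + ((n + 1) / 8 - 1) := by
    have h1 : (n + 1) = 2 ^ 3 * ((n + 1) / 8) := by ring
    have h2 : Real.log ((n + 1) / 8) ≤ (n + 1) / 8 - 1 := Real.log_le_sub_one_of_pos (by linarith)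
    have h3 : Real.log (n + 1) = 3 * Real.log 2 + Real.log ((n + 1) / 8) := by
      conv_lhs => rw [h1]
      rw [Real.log_mul (by norm_num) (by linarith), Real.log_pow]
      norm_num
    rw [h3]; linarith
  have hl : Real.log 2 < 0.6931471808 := Real.log_two_lt_d9
  nlinarith

theorem evR_pl (z : Circle) (p : ℤ[X]) : evR z (toLaurent p : RO ℤ) = aeval (z : ℂ) p := by
  unfold evR
  rw [LaurentPolynomial.eval₂_toLaurent]
  rfl

/-- `1/b` from `r ≤ 2(1/b - b)` (even `r`) and `r + 1 ≤ 2/b` (odd `r`). -/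
theorem half_le {b : ℝ} (hb : 0 < b) {r : ℕ} (he : Even r → (r : ℝ) ≤ 2 * (b⁻¹ - b))
    (ho : Odd r → (r : ℝ) + 1 ≤ 2 * b⁻¹) : (r : ℝ) ≤ 2 * b⁻¹ := by
  rcases Nat.even_or_odd r with h | h
  · have := he h; linarith
  · have := ho h; linarith

theorem two_le {b : ℝ} (hb : 0 < b) {r : ℕ} (hr : 3 ≤ r)
    (he : Even r → (r : ℝ) ≤ 2 * (b⁻¹ - b))
    (ho : Odd r → (r : ℝ) + 1 ≤ 2 * b⁻¹) : 2 ≤ b⁻¹ := by
  rcases Nat.even_or_odd r with h | h
  · have h4 : 4 ≤ r := by
      rcases Nat.lt_or_ge r 4 with h5 | h5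
      · have : r = 3 := by omega
        subst this
        exact absurd h (by decide)
      · exact h5
    have h5 : (4 : ℝ) ≤ r := by exact_mod_cast h4
    have := he h; linarith
  · have h3 : (3 : ℝ) ≤ r := by exact_mod_cast hr
    have := ho h; linarith

/-- The polynomial of a ray of type B: `eps(0) = 1/b`, `|eps| = |m|` on the circle. -/
theorem tb_eps {m : RO ℤ} {V : ℤ[X]} {a b : ℝ} (ha : 0 < a) (h : TB m V a b) :
    ∃ eps : ℝ[X], (∀ z : Circle, ‖(aeval (z : ℂ) eps : ℂ)‖ = ‖evR z m‖) ∧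
      eps.coeff 0 = b⁻¹ := by
  obtain ⟨hm, hV0, hab, hb1, t, hVt, -⟩ := h
  have hb : 0 < b := ha.trans hab
  refine ⟨-((1 - C b * X) * t), fun z => ?_, ?_⟩
  · have hz : ‖(z : ℂ)‖ = 1 := Circle.norm_coe z
    have h1 : evR z m = aeval (z : ℂ) V := by rw [hm]; exact evR_pl z V
    have h2 : (aeval (z : ℂ) V : ℂ) = ((z : ℂ) - b) * aeval (z : ℂ) t := by
      rw [← Pool.Agent.B5.Nr.Sch.aeval_map_real, hVt]
      simp
    rw [h1, h2, map_neg, norm_neg, map_mul, norm_mul, norm_mul,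
      Pool.Agent.B5.Nr.Sch.circ b z hz]
    simp
  · have h1 := congrArg (fun p => coeff p 0) hVt
    simp only [coeff_map, mul_coeff_zero, coeff_sub, coeff_X_zero, coeff_C_zero, zero_sub,
      hV0, map_one] at h1
    simp only [coeff_neg, mul_coeff_zero, coeff_sub, coeff_one_zero, coeff_C_zero, coeff_X_zero,
      mul_zero, sub_zero, one_mul]
    have h2 : -t.coeff 0 * b = 1 := by rw [h1]; ring
    exact eq_inv_of_mul_eq_one_left h2

/-- The polynomial of a ray of type A. -/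
theorem ta_eps {m : RO ℤ} {E : ℤ[X]} (h : TA m E) :
    ∃ eps : ℝ[X], (∀ z : Circle, ‖(aeval (z : ℂ) eps : ℂ)‖ = ‖evR z m‖) ∧
      eps.coeff 0 = E.coeff 0 := by
  refine ⟨E.map (Int.castRingHom ℝ), fun z => ?_, by simp⟩
  rw [h.1, map_neg, norm_neg, evR_pl, map_mul, aeval_X, norm_mul, Circle.norm_coe, one_mul,
    Pool.Agent.B5.Nr.Sch.aeval_map_real]

section

variable {P : Type} [Fintype P] [DecidableEq P] {L : Type} [AddCommGroup L] [Module.Free ℤ L]
  [Module.Finite ℤ L] {phi : L →+ (P → ℤ)} {D : AO ℤ L}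

theorem bmm_comm (T T' : L) (lam lam' : (RO ℤ)ˣ) : bmm D T T' lam lam' = bmm D T' T lam' lam := by
  unfold bmm
  rw [add_comm T' T]
  ring

/-- A ray and its parallels are pairwise parallel. -/
theorem ppl_insert (hTra : BeTraS) {q f : ℤ[X]} {a : ℝ} {j s : ℕ} {S : Fin 3 → L}
    {es : Fin 3 → (RO ℤ)ˣ} {T : Fin s → L} {lam : Fin s → (RO ℤ)ˣ}
    (h : Be phi D q f a j s S es T lam) (i : Fin s) :
    Ppl D T lam (insert i (Pll D T lam i)) ∧
      (insert i (Pll D T lam i)).card = (Pll D T lam i).card + 1 := by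
  have hm : ∀ k, k ∈ Pll D T lam i ↔ k ≠ i ∧ bmm D (T i) (T k) (lam i) (lam k) = 0 := fun k => by
    simp [Pll]
  refine ⟨?_, Finset.card_insert_of_notMem fun hi => ((hm i).mp hi).1 rfl⟩
  intro k hk l hl hkl
  rw [Finset.mem_insert, hm] at hk hl
  rcases hk with rfl | ⟨hk1, hk2⟩
  · rcases hl with rfl | ⟨hl1, hl2⟩
    · exact absurd rfl hkl
    · exact hl2
  · rcases hl with rfl | ⟨hl1, hl2⟩
    · rw [bmm_comm]; exact hk2
    · exact hTra P L phi D q f a j s S es T lam h i k l hk1.symm hl1.symm hkl hk2 hl2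

/-- The others of a pairwise parallel set are parallel to `i`. -/
theorem card_ppl {s : ℕ} {T : Fin s → L} {lam : Fin s → (RO ℤ)ˣ} {Q : Finset (Fin s)}
    (hQ : Ppl D T lam Q) {i : Fin s} (hi : i ∈ Q) : Q.card ≤ (Pll D T lam i).card + 1 := by
  classical
  have h1 : Q ⊆ insert i (Pll D T lam i) := by
    intro k hk
    rw [Finset.mem_insert]
    by_cases h : k = i
    · exact Or.inl h
    · right
      simp only [Pll, Finset.mem_filter, Finset.mem_univ, true_and]
      exact ⟨h, hQ i hi k hk (Ne.symm h)⟩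
  calc Q.card ≤ (insert i (Pll D T lam i)).card := Finset.card_le_card h1
    _ ≤ _ := Finset.card_insert_le _ _

end

/-- (BE) ASSEMBLY. -/
theorem betS (hStr : BeStrS) (hTyp : BeTypS) (hPow : BePowS) (hTra : BeTraS) (hCls : BeClsS)
    (hCnt : BeCntS) (hN2 : BeN2S) : BetS := by
  intro P L _ _ _ _ _ phi D q f a j eta C Z mu et hB
  obtain ⟨s, S, es, T, lam, h⟩ := hStr P L phi D q f a j eta C Z mu et hB
  have ha : 0 < a := h.ko.qn.a0
  have hj := h.ko.j2
  have hs := h.s2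
  have ht := hTyp P L phi D q f a j s S es T lam h
  -- the contribution of a ray
  have key : ∀ lo : ℝ, (∀ i E, TA (bm D (T i) (lam i)) E → lo ≤ (E.coeff 0 : ℝ)) →
      (∀ i V b, TB (bm D (T i) (lam i)) V a b → lo ≤ b⁻¹) → 0 < lo →
      (s : ℝ) * lo ≤ 2 * ((j : ℝ) + 1) * Real.log ((j : ℝ) + 1) ∧
        (j ≤ 6 → (s : ℝ) * lo < 4 * (j : ℝ) - 4) := by
    intro lo hA hBt hlo
    have h1 : ∀ i, ∃ eps : ℝ[X], (∀ z : Circle,
        ‖(aeval (z : ℂ) eps : ℂ)‖ = ‖evR z (bm D (T i) (lam i))‖) ∧ lo ≤ eps.coeff 0 := by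
      intro i
      rcases ht i with ⟨E, hE⟩ | ⟨V, b, hV⟩
      · obtain ⟨eps, h2, h3⟩ := ta_eps hE
        exact ⟨eps, h2, by rw [h3]; exact hA i E hE⟩
      · obtain ⟨eps, h2, h3⟩ := tb_eps ha hV
        exact ⟨eps, h2, by rw [h3]; exact hBt i V b hV⟩
    choose eps h2 h3 using h1
    have h4 := hPow P L phi D q f a j s S es T lam h eps h2 (fun i => hlo.trans_le (h3 i))
    have h5 : (s : ℝ) * lo ≤ ∑ i, (eps i).coeff 0 := by
      calc (s : ℝ) * lo = ∑ _i : Fin s, lo := by simp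
        _ ≤ _ := Finset.sum_le_sum fun i _ => h3 i
    exact ⟨h5.trans h4.1, fun h6 => h5.trans_lt (h4.2 h6)⟩
  have hsR : (s : ℝ) = 2 * (j : ℝ) - 2 := by
    have : (s : ℝ) + 2 = 2 * j := by exact_mod_cast hs
    linarith
  rcases Nat.lt_or_ge j 3 with hj3 | hj3
  · -- `j = 2`
    obtain rfl : j = 2 := by omega
    have h1 := (key 2 (fun i E hE => by exact_mod_cast hE.2)
      (fun i V b hV => absurd hV (hN2 P L phi D q f a s S es T lam h i V b)) (by norm_num)).2
      (by norm_num)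
    rw [hsR] at h1
    push_cast at h1
    linarith
  -- `j ≥ 3`: at most `j` pairwise parallel rays
  have hL : ∀ i, (Pll D T lam i).card + 1 ≤ j := by
    intro i
    obtain ⟨h1, h2⟩ := ppl_insert hTra h i
    rw [← h2]
    exact (hCls P L phi D q f a j s S es T lam h hj3 _ h1).1
  have hc : ∀ i, (∀ E, TA (bm D (T i) (lam i)) E →
      (s : ℤ) ≤ (Pll D T lam i).card + 2 * E.coeff 0) ∧
       ∀ V b r, TB (bm D (T i) (lam i)) V a b → s = (Pll D T lam i).card + r →
         (Even r → (r : ℝ) ≤ 2 * (b⁻¹ - b)) ∧ (Odd r → (r : ℝ) + 1 ≤ 2 * b⁻¹) := by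
    intro i
    rcases hCnt P L phi D q f a j s S es T lam h i with h1 | h1
    · have := hL i; omega
    · exact h1
  rcases Nat.lt_or_ge j 7 with hj7 | hj7
  · -- `3 ≤ j ≤ 6`
    have h1 := (key 2 (fun i E hE => by exact_mod_cast hE.2) (fun i V b hV => ?_)
      (by norm_num)).2 (by omega)
    · rw [hsR] at h1
      linarith
    · have hb : 0 < b := ha.trans hV.2.2.1
      obtain ⟨r, hr⟩ : ∃ r, s = (Pll D T lam i).card + r := ⟨s - (Pll D T lam i).card, by
        have := hL i; omega⟩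
      have hLi := hL i
      obtain ⟨he, ho⟩ := (hc i).2 V b r hV hr
      rcases Nat.lt_or_ge r 3 with hr3 | hr3
      · -- `j = 3`, three parallel rays
        exfalso
        have hj3' : j = 3 := by omega
        have hcard : (Pll D T lam i).card = 2 := by omega
        obtain ⟨g1, g2⟩ := ppl_insert hTra h i
        obtain ⟨k, hk, V', b', hV', hlt⟩ :=
          (hCls P L phi D q f a j s S es T lam h hj3 _ g1).2 hj3' (by omega)
        have hk2 : (Pll D T lam k).card = 2 := by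
          have e1 := card_ppl g1 hk
          have e2 := hL k
          omega
        have e3 := ((hc k).2 V' b' 2 hV' (by omega)).1 (by decide)
        push_cast at e3
        linarith
      · exact two_le hb hr3 he ho
  · -- `j ≥ 7`
    have hjR : (7 : ℝ) ≤ j := by exact_mod_cast hj7
    have h1 := (key (((j : ℝ) - 1) / 2) (fun i E hE => ?_) (fun i V b hV => ?_)
      (by linarith)).1
    · rw [hsR] at h1
      have h2 := log_num hjR
      nlinarith
    · have h2 := (hc i).1 E hE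
      have h3 := hL i
      have h4 : (j : ℤ) - 1 ≤ 2 * E.coeff 0 := by
        have h5 : (s : ℤ) + 2 = 2 * j := by exact_mod_cast hs
        have h6 : ((Pll D T lam i).card : ℤ) + 1 ≤ j := by exact_mod_cast h3
        linarith
      have h5 : (j : ℝ) - 1 ≤ 2 * (E.coeff 0 : ℝ) := by exact_mod_cast h4
      linarith
    · have hb : 0 < b := ha.trans hV.2.2.1
      obtain ⟨r, hr⟩ : ∃ r, s = (Pll D T lam i).card + r := ⟨s - (Pll D T lam i).card, by
        have := hL i; omega⟩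
      obtain ⟨he, ho⟩ := (hc i).2 V b r hV hr
      have h2 := half_le hb he ho
      have h3 := hL i
      have h4 : (j : ℝ) ≤ r + 1 := by
        have : j ≤ r + 1 := by omega
        exact_mod_cast this
      linarith

end Pool.Agent.B5.KO58
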