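import Pool.Agent.Lib.MP_b5021c_nt.KO.H58.BeAsm
import Pool.Agent.Lib.MP_b5021c_nt.KO.H96.BeStr
import Pool.Agent.Lib.MP_b5021c_nt.KO.H42.Bpa
import Pool.Agent.Lib.MP_b5021c_nt.KO.H89.BePow
import Pool.Agent.Lib.MP_b5021c_nt.KO.H68.Typ
import Pool.Agent.Lib.MP_b5021c_nt.KO.H07.BeZ2
import Pool.Agent.Lib.MP_b5021c_nt.KO.H29.Cnt
import Pool.Agent.Lib.MP_b5021c_nt.BE.H24.Sf
import Pool.Agent.Lib.MP_b5021c_nt.KO.H50.Bcls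

/-!
# Board b5, PURE BETA: `BetS` from the library rows and the row BE_N2
-/

namespace Pool.Agent.B5.KO58

open Pool.Agent.B5.KE
open Pool.Agent.B5.Nr (TrezS)

theorem betS_rest (hE2 : E2S) (hRS : RaySpanS) (hI : Inj1S) (hF1 : F1S) (hF2 : F2S) (hF3 : F3S)
    (hFc : FcmS) (hZf : ZfinS) (hQ : QstS) (hM : MinS) (hV : VcoS) (hW : WWfS) (hTr : TrezS)
    (hPc : PCZS) (hMV : MVS) (hMm : MmulS) (hFD : FDS) (hNb : NbzS) (hLd : LdzS)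
    (hRes : ResKS) (hFact : FactS) (hC0 : Coeff0S) (hE1 : E1S) (hM1 : M1S) (hC4 : C4S)
    (hThin : ThinS) (hSm : SmallS) (hG0 : G0S) (hU : UnitAS) (hC1 : C1bS) (hSpj : SpjS)
    (hClp : ClpS) (hG1 : G1pS) (hRkU : RkUSS) (hRk : RkS) (hEvz : EvzS) (hN2 : BeN2S) :
    BetS :=
  have hSf : BeSfS := BE.H24.besf hQ hM hV hW
  have hZ : BeZS := BeZ.beZ hRes hFact hC0 hE1 hMV hM1 hC4 hE2 hThin hW hV hFD hSm hI hG0 hU hM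
    hC1 hMm hSf
  have hTyp : BeTypS := KO68.beTyp hTr hPc hMV hMm hFD hNb hLd
  betS (KO.H96.beStr hE2 hRS hI hF1 hF2 hF3) hTyp
    (PowR.bePowS hFc) (O4Q.bTra hFc hZf) (O4Q.beCls hTyp (O4Q.bPar hFc hZf))
    (KO29.be_cnt hFD hV hSpj hSm hClp hG1 hRkU hRk hE1 hMV hEvz hZ hSf) hN2

end Pool.Agent.B5.KO58
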