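import Pool.Agent.Lib.MP_b5021c_nt.IfaceBE
import Pool.Agent.Lib.MP_b5021c_nt.KO.H62.Split
import Pool.Agent.Lib.MP_b5021c_nt.KO.H96.Clos

/-!
# Board b5, PURE BETA: `Ob4bS` from `BetS`
-/

namespace Pool.Agent.B5.KO58

open scoped LaurentPolynomial
open Polynomial

/-- (KO_O4B) from the result of IfaceBE. -/
theorem ob4b_of_bet (hE2 : E2S) (hOfa : OfaS) (hO1 : Oo1S) (hB : BetS) : Ob4bS := by
  intro P L _ _ _ _ _ phi D q f a j eta C Z mu W hu hn hc hZ hN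
  obtain ⟨et, het⟩ := KO.des_exists hE2 hOfa hO1 W.ko
  refine hB P L phi D q f a j eta C Z mu et ⟨W, hu, hn, hc, hZ, het, fun T hT hTZ => ?_⟩
  obtain ⟨-, -, -, h1, -⟩ := het T hT
  by_contra h
  push Not at h
  exact hN T (et T) ⟨hT, hTZ, h1, h⟩

end Pool.Agent.B5.KO58
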